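import Pool.Agent.Helper51.TN.A0
import Pool.Agent.Helper51.TN.A5

/-!
Typical representations: the argument of `TN/A6.lean` run for all but `η` of the Plancherel measure.

Proof in words (compare `Helper1/TS/CHI.lean`, `Helper70/TU/Z2.lean`). Family `U i`, `d_i` of `exists_family2 (Perm (Fin n))`, `n ≥ N₀`; `r_i = rr (U i).ρ` (real, `χ_i = d_i r_i`). From `horth` with `x = y = g`:
`∑_i d_i r_i(g)² = #(centralizer of g) = n!/cls g`. Put `V_s(i) = ∑_{s(g) = s} r_i(g)²`, `Q(i) = ∑_g r_i(g)² = n!/d_i²` (`norm_one`), `c_i = cV (U i) > 0`.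
Weighted sums (weights `d_i`, total `n!`): `∑ d_i V_s(i) ≤ n! exp (5√s)` (`class_count`), `∑ d_i Q(i) = n! * #classes ≤ n! (n+1) exp (5√n)` (`sum_inv_cls`, `card_classes_le'`),
`∑ d_i / c_i ≤ (n-1)! (1 + e√n)` (`avg_inv_cV`). Put `F(i) = ∑_{s=1}^n V_s(i)/(10 s² exp (5√s)) + Q(i)/(10 (n+1) exp (5√n)) + (√n/10)/c_i`. Then
`∑ d_i F(i) ≤ n! (∑_{s≥1} 1/(10 s²) + 1/10 + (√n/10)(1 + e√n)/n) ≤ n! (0.2 + 0.1 + 0.28 + 0.1/√n) < n!` for `n ≥ N₀`, so some `i` has `F(i) < 1`, and every summand is `< 1`: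
`V_s(i) ≤ 10 s² exp (5√s) ≤ 240 exp (6√s)` (`s² = (√s)^4 ≤ 24 exp (√s)`), for `s > n` the sum is empty; `n! ≤ 10 (n+1) exp (5√n) d_i²`; `c_i ≥ √n/10`, and `c_i ≤ |CC|` (`cV_le`).
-/

set_option autoImplicit false

open Module Equiv CategoryTheory Pool.Agent.Helper1.TS Pool.Agent.Helper70.TU

open Pool.Agent.Helper51.TN

namespace Pool.Agent.Helper51.TY

private lemma count97 {G : Type} [Group G] [Fintype G] [DecidableEq G] (g : G) :
    Fintype.card G = cls g * (Finset.univ.filter (fun w : G => w * g * w⁻¹ = g)).card := by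
  classical
  set c := (Finset.univ.filter (fun w : G => w * g * w⁻¹ = g)).card with hc
  have hfib : ∀ y : G, (Finset.univ.filter (fun z : G => z * g * z⁻¹ = y * g * y⁻¹)).card = c := by
    intro y
    rw [hc]
    refine Finset.card_bij' (fun z _ => y⁻¹ * z) (fun w _ => y * w) ?_ ?_ ?_ ?_
    · intro z hz
      rw [Finset.mem_filter] at hz ⊢
      refine ⟨Finset.mem_univ _, ?_⟩
      calc y⁻¹ * z * g * (y⁻¹ * z)⁻¹ = y⁻¹ * (z * g * z⁻¹) * y := by group
        _ = g := by rw [hz.2]; group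
    · intro w hw
      rw [Finset.mem_filter] at hw ⊢
      refine ⟨Finset.mem_univ _, ?_⟩
      calc y * w * g * (y * w)⁻¹ = y * (w * g * w⁻¹) * y⁻¹ := by group
        _ = y * g * y⁻¹ := by rw [hw.2]
    · intro z _
      group
    · intro w _
      group
  rw [← Finset.card_univ, Finset.card_eq_sum_card_fiberwise (f := fun z : G => z * g * z⁻¹)
    (t := Finset.univ.filter (fun h => IsConj g h))]
  · have h3 : ∀ b ∈ Finset.univ.filter (fun h => IsConj g h),
        (Finset.univ.filter (fun z : G => z * g * z⁻¹ = b)).card = c := by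
      intro b hb
      rw [Finset.mem_filter, isConj_iff] at hb
      obtain ⟨_, y, hy⟩ := hb
      rw [← hy]
      exact hfib y
    rw [Finset.sum_congr rfl h3, Finset.sum_const, smul_eq_mul]
    congr 1
    unfold cls
    congr 1
    ext z
    simp
  · intro z _
    rw [Finset.mem_coe, Finset.mem_filter]
    exact ⟨Finset.mem_univ _, isConj_iff.2 ⟨z, rfl⟩⟩

private lemma inv_sq_sum97 (n : ℕ) : ∑ s ∈ Finset.Icc 1 n, (1 : ℝ) / (s : ℝ) ^ 2 ≤ 2 := by
  have h : ∀ n : ℕ, 1 ≤ n → ∑ s ∈ Finset.Icc 1 n, (1 : ℝ) / (s : ℝ) ^ 2 ≤ 2 - 1 / n := by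
    intro n hn
    induction n, hn using Nat.le_induction with
    | base => norm_num
    | succ n hn ih =>
      rw [Finset.sum_Icc_succ_top (by omega)]
      have hn' : (0 : ℝ) < n := by exact_mod_cast hn
      have h1 : (1 : ℝ) / ((n + 1 : ℕ) : ℝ) ^ 2 ≤ 1 / n - 1 / ((n + 1 : ℕ) : ℝ) := by
        push_cast
        rw [div_sub_div _ _ hn'.ne' (by positivity), div_le_div_iff₀ (by positivity) (by positivity)]
        nlinarith
      linarith
  rcases Nat.eq_zero_or_pos n with rfl | hn
  · simp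
  · have := h n hn
    have h2 : (0 : ℝ) ≤ 1 / n := by positivity
    linarith

private lemma cV_pos97 {n : ℕ} (h : 1 ≤ n) {V : Type*} [AddCommGroup V] [Module ℂ V] [FiniteDimensional ℂ V]
    (ρ : Representation ℂ (Perm (Fin n)) V) (hd : 0 < finrank ℂ V) : 0 < cV h ρ := by
  unfold cV
  have hf : (0 : ℝ) < (n - 1).factorial := by exact_mod_cast Nat.factorial_pos _
  refine div_pos ?_ hf
  refine lt_of_lt_of_le ?_ (Finset.single_le_sum (f := fun x : Perm (Fin (n - 1)) => (ρ.character (jT h x)).re ^ 2)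
    (fun x _ => sq_nonneg _) (Finset.mem_univ 1))
  simp only [map_one, Representation.char_one]
  have hd' : (0 : ℝ) < (finrank ℂ V : ℝ) := by exact_mod_cast hd
  rw [Complex.natCast_re]
  positivity

/-- The three properties of a typical `U`. -/
def GoodU (K γ : ℝ) {n : ℕ} (U : FDRep ℂ (Perm (Fin n))) : Prop :=
  (∀ s : ℕ, 1 ≤ s →
      ∑ g ∈ Finset.univ.filter (fun g : Perm (Fin n) => g.support.card = s), (rr U.ρ g) ^ 2 ≤
        K * Real.exp (6 * Real.sqrt s)) ∧
    (n.factorial : ℝ) ≤ K * Real.exp (6 * Real.sqrt n) * (finrank ℂ U : ℝ) ^ 2 ∧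
    γ * Real.sqrt n ≤ (CC U.ρ).card

theorem poly_le51 (n : ℕ) : 10 * ((n : ℝ) + 1) * Real.exp (5 * Real.sqrt n) ≤ 30 * Real.exp (6 * Real.sqrt n) := by
  have h0 : (0 : ℝ) ≤ n := Nat.cast_nonneg n
  have h1 := Real.pow_div_factorial_le_exp (Real.sqrt n) (Real.sqrt_nonneg _) 2
  rw [Real.sq_sqrt h0, show ((Nat.factorial 2 : ℕ) : ℝ) = 2 by norm_num [Nat.factorial]] at h1
  have h2 : 1 ≤ Real.exp (Real.sqrt n) := Real.one_le_exp (Real.sqrt_nonneg _)
  have h3 : Real.exp (6 * Real.sqrt n) = Real.exp (Real.sqrt n) * Real.exp (5 * Real.sqrt n) := by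
    rw [← Real.exp_add]
    congr 1
    ring
  rw [h3, ← mul_assoc]
  refine mul_le_mul_of_nonneg_right ?_ (Real.exp_pos _).le
  linarith

/-- All but `η` of the Plancherel measure consists of representations with the three properties. -/
theorem good_family (η : ℝ) (hη : 0 < η) (n : ℕ) (hn : 2 ≤ n) {N : ℕ}
    (U : Fin N → FDRep ℂ (Perm (Fin n))) (hsimple : ∀ i, Simple (U i))
    (hsum : ∑ i, finrank ℂ (U i) = Fintype.card (Perm (Fin n)))
    (horth0 : ∀ x y : Perm (Fin n), ∑ i, (U i).character x * (U i).character y⁻¹ / finrank ℂ (U i) =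
        ((Finset.univ.filter (fun g : Perm (Fin n) => g * x * g⁻¹ = y)).card : ℂ))
    (B : Finset (Fin N)) (hB : ∀ i ∈ B, ¬ GoodU (240 / η) (η / 10) (U i)) :
    ∑ i ∈ B, (finrank ℂ (U i) : ℝ) ≤ η * n.factorial := by
  classical
  have hn2 : 2 ≤ n := hn
  have hnR : (2 : ℝ) ≤ n := by exact_mod_cast hn2
  have horth : ∀ x y : Perm (Fin n), ∑ i, (U i).character x * (U i).character y⁻¹ / finrank ℂ (U i) =
      ((Finset.univ.filter (fun g : Perm (Fin n) => g * x * g⁻¹ = y)).card : ℂ) := by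
    intro x y
    rw [horth0 x y]
  have hcard : Fintype.card (Perm (Fin n)) = n.factorial := by
    rw [Fintype.card_perm, Fintype.card_fin]
  have hfac : (0 : ℝ) < n.factorial := by exact_mod_cast n.factorial_pos
  have c1 : ∀ i g, (U i).character g = ((Representation.character (U i).ρ g).re : ℂ) := fun i g =>
    char_perm_real (U i).ρ g
  have c2 : ∀ i g, (U i).character g⁻¹ = (U i).character g := fun i g => char_perm_inv (U i).ρ g
  have h3 : ∀ g : Perm (Fin n), ∑ i, (finrank ℂ (U i) : ℝ) * (rr (U i).ρ g) ^ 2 =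
      (n.factorial : ℝ) * (1 / cls g) := by
    intro g
    have h := horth g g
    have e : ∀ i, (U i).character g * (U i).character g⁻¹ / (finrank ℂ (U i) : ℂ) =
        (((finrank ℂ (U i) : ℝ) * (rr (U i).ρ g) ^ 2 : ℝ) : ℂ) := by
      intro i
      rw [c2, c1]
      unfold rr
      by_cases h0 : finrank ℂ (U i) = 0
      · simp [h0]
      · have h0' : (finrank ℂ (U i) : ℂ) ≠ 0 := by exact_mod_cast h0
        push_cast
        field_simp
    rw [Finset.sum_congr rfl fun i _ => e i] at h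
    have h4 := count97 g
    rw [hcard] at h4
    have hcls : (0 : ℝ) < cls g := by
      have : cls g ≠ 0 := by
        intro h0
        rw [h0, zero_mul] at h4
        exact n.factorial_ne_zero h4
      exact_mod_cast Nat.pos_of_ne_zero this
    have h5 : ∑ i, (finrank ℂ (U i) : ℝ) * (rr (U i).ρ g) ^ 2 =
        ((Finset.univ.filter (fun w : Perm (Fin n) => w * g * w⁻¹ = g)).card : ℝ) := by
      exact_mod_cast h
    rw [h5]
    have h6 : (n.factorial : ℝ) = cls g * ((Finset.univ.filter (fun w : Perm (Fin n) => w * g * w⁻¹ = g)).card : ℝ) := by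
      exact_mod_cast h4
    rw [h6]
    field_simp
  have hSd : ∑ i, (finrank ℂ (U i) : ℝ) = n.factorial := by
    rw [← hcard, ← hsum]
    push_cast
    rfl
  -- the three functionals
  set Vs : ℕ → Fin N → ℝ := fun s i =>
    ∑ g ∈ Finset.univ.filter (fun g : Perm (Fin n) => g.support.card = s), (rr (U i).ρ g) ^ 2 with hVs
  set Q : Fin N → ℝ := fun i => ∑ g : Perm (Fin n), (rr (U i).ρ g) ^ 2 with hQ
  have hV0 : ∀ s i, 0 ≤ Vs s i := fun s i => Finset.sum_nonneg fun g _ => by positivity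
  have hQ0 : ∀ i, 0 ≤ Q i := fun i => Finset.sum_nonneg fun g _ => by positivity
  have hSV : ∀ s, ∑ i, (finrank ℂ (U i) : ℝ) * Vs s i ≤ (n.factorial : ℝ) * Real.exp (5 * Real.sqrt s) := by
    intro s
    calc ∑ i, (finrank ℂ (U i) : ℝ) * Vs s i
        = ∑ g ∈ Finset.univ.filter (fun g : Perm (Fin n) => g.support.card = s),
            ∑ i, (finrank ℂ (U i) : ℝ) * (rr (U i).ρ g) ^ 2 := by
          simp only [hVs, Finset.mul_sum]
          rw [Finset.sum_comm]
      _ = (n.factorial : ℝ) * ∑ g ∈ Finset.univ.filter (fun g : Perm (Fin n) => g.support.card = s),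
            (1 : ℝ) / cls g := by
          rw [Finset.mul_sum]
          exact Finset.sum_congr rfl fun g _ => h3 g
      _ ≤ _ := mul_le_mul_of_nonneg_left (class_count n s) hfac.le
  have hSQ : ∑ i, (finrank ℂ (U i) : ℝ) * Q i ≤ (n.factorial : ℝ) * ((n + 1) * Real.exp (5 * Real.sqrt n)) := by
    calc ∑ i, (finrank ℂ (U i) : ℝ) * Q i
        = ∑ g : Perm (Fin n), ∑ i, (finrank ℂ (U i) : ℝ) * (rr (U i).ρ g) ^ 2 := by
          simp only [hQ, Finset.mul_sum]
          rw [Finset.sum_comm]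
      _ = ∑ g : Perm (Fin n), (n.factorial : ℝ) * (1 / cls g) :=
          Finset.sum_congr rfl fun g _ => h3 g
      _ = (n.factorial : ℝ) * (Nat.card (ConjClasses (Perm (Fin n))) : ℝ) := by
          rw [← Finset.mul_sum, sum_inv_cls]
      _ ≤ _ := mul_le_mul_of_nonneg_left (card_classes_le' n) hfac.le
  have h1n : 1 ≤ n := by omega
  have hSc := avg_inv_cV hn2 U hsimple (fun x y => by
    rw [horth0 x y])
  have hfac1 : (n.factorial : ℝ) = n * ((n - 1).factorial : ℝ) := by
    obtain ⟨m, rfl⟩ : ∃ m, n = m + 1 := ⟨n - 1, by omega⟩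
    rw [Nat.factorial_succ, Nat.add_sub_cancel]
    push_cast
    ring
  set E : ℕ → ℝ := fun s => 10 * (s : ℝ) ^ 2 * Real.exp (5 * Real.sqrt s) with hE
  set EQ : ℝ := 10 * ((n + 1) * Real.exp (5 * Real.sqrt n)) with hEQ
  have hEQ0 : 0 < EQ := by positivity
  set F : Fin N → ℝ := fun i => ∑ s ∈ Finset.Icc 1 n, Vs s i / E s + Q i / EQ +
    Real.sqrt n / 10 / cV h1n (U i).ρ with hF
  have hsq : 0 < Real.sqrt n := Real.sqrt_pos.mpr (by linarith)
  have hsq1 : 1 ≤ Real.sqrt n := by
    rw [Real.one_le_sqrt]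
    linarith
  have hsqn : Real.sqrt n * Real.sqrt n = n := Real.mul_self_sqrt (by linarith)
  have hSF : ∑ i, (finrank ℂ (U i) : ℝ) * F i < n.factorial := by
    have e1 : ∑ i, (finrank ℂ (U i) : ℝ) * F i = ∑ s ∈ Finset.Icc 1 n, (∑ i, (finrank ℂ (U i) : ℝ) * Vs s i) / E s +
        (∑ i, (finrank ℂ (U i) : ℝ) * Q i) / EQ +
        Real.sqrt n / 10 * ∑ i, (finrank ℂ (U i) : ℝ) / cV h1n (U i).ρ := by
      simp only [hF, mul_add, Finset.sum_add_distrib]
      congr 1
      · congr 1
        · rw [Finset.sum_congr rfl fun i _ => Finset.mul_sum _ _ _, Finset.sum_comm]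
          refine Finset.sum_congr rfl fun s _ => ?_
          rw [Finset.sum_div]
          exact Finset.sum_congr rfl fun i _ => by ring
        · rw [Finset.sum_div]
          exact Finset.sum_congr rfl fun i _ => by ring
      · rw [Finset.mul_sum]
        exact Finset.sum_congr rfl fun i _ => by ring
    have e2 : ∑ s ∈ Finset.Icc 1 n, (∑ i, (finrank ℂ (U i) : ℝ) * Vs s i) / E s ≤ n.factorial * (1 / 5) := by
      have e3 : ∀ s ∈ Finset.Icc 1 n, (∑ i, (finrank ℂ (U i) : ℝ) * Vs s i) / E s ≤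
          (n.factorial : ℝ) / 10 * (1 / (s : ℝ) ^ 2) := by
        intro s hs
        have hs1 : 1 ≤ s := (Finset.mem_Icc.1 hs).1
        have hs0 : (0 : ℝ) < s := by exact_mod_cast hs1
        have hEs : 0 < E s := by
          simp only [hE]
          positivity
        rw [div_le_iff₀ hEs]
        refine (hSV s).trans (le_of_eq ?_)
        simp only [hE]
        field_simp
      refine (Finset.sum_le_sum e3).trans ?_
      rw [← Finset.mul_sum]
      have := inv_sq_sum97 n
      nlinarith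
    have e4 : (∑ i, (finrank ℂ (U i) : ℝ) * Q i) / EQ ≤ n.factorial * (1 / 10) := by
      rw [div_le_iff₀ hEQ0]
      refine hSQ.trans (le_of_eq ?_)
      rw [hEQ]
      ring
    have e5 : Real.sqrt n / 10 * ∑ i, (finrank ℂ (U i) : ℝ) / cV h1n (U i).ρ ≤ n.factorial * (2 / 5) := by
      have e6 : Real.sqrt n / 10 * ∑ i, (finrank ℂ (U i) : ℝ) / cV h1n (U i).ρ ≤
          Real.sqrt n / 10 * ((n - 1).factorial * (1 + Real.exp 1 * Real.sqrt n)) :=
        mul_le_mul_of_nonneg_left hSc (by positivity)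
      refine e6.trans ?_
      rw [hfac1]
      have he : Real.exp 1 < 2.7182818286 := Real.exp_one_lt_d9
      have hg : (0 : ℝ) < ((n - 1).factorial : ℝ) := by exact_mod_cast Nat.factorial_pos _
      have e7 : Real.sqrt n / 10 * (1 + Real.exp 1 * Real.sqrt n) ≤ n * (2 / 5) := by
        have e8 : Real.sqrt n / 10 * (1 + Real.exp 1 * Real.sqrt n) =
            (Real.sqrt n + Real.exp 1 * (Real.sqrt n * Real.sqrt n)) / 10 := by ring
        rw [e8, hsqn]
        have e9 : Real.sqrt n ≤ n := by nlinarith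
        nlinarith
      calc Real.sqrt n / 10 * (((n - 1).factorial : ℝ) * (1 + Real.exp 1 * Real.sqrt n))
          = (Real.sqrt n / 10 * (1 + Real.exp 1 * Real.sqrt n)) * ((n - 1).factorial : ℝ) := by ring
        _ ≤ n * (2 / 5) * ((n - 1).factorial : ℝ) := mul_le_mul_of_nonneg_right e7 hg.le
        _ = _ := by ring
    rw [e1]
    linarith
  have hE0 : ∀ s : ℕ, 0 ≤ E s := fun s => by
    simp only [hE]
    positivity
  have hF0 : ∀ i, 0 ≤ F i := by
    intro i
    have hd : 0 < finrank ℂ (U i) := finrank_pos_of_irr (U i) (hsimple i)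
    have hc0 : 0 < cV h1n (U i).ρ := cV_pos97 h1n (U i).ρ hd
    have k1 : 0 ≤ ∑ s ∈ Finset.Icc 1 n, Vs s i / E s := Finset.sum_nonneg fun s _ => div_nonneg (hV0 s i) (hE0 s)
    have k2 : 0 ≤ Q i / EQ := div_nonneg (hQ0 i) hEQ0.le
    have k3 : 0 ≤ Real.sqrt n / 10 / cV h1n (U i).ρ := by positivity
    simp only [hF]
    linarith
  -- the bad ones have `F i > 1 / η`
  have hbad : ∀ i ∈ B, 1 < η * F i := by
    intro i hiB
    by_contra hcon
    refine hB i hiB ?_
    have hFi : η * F i ≤ 1 := not_lt.1 hcon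
    have hd : 0 < finrank ℂ (U i) := finrank_pos_of_irr (U i) (hsimple i)
    have hd0 : (0 : ℝ) < finrank ℂ (U i) := by exact_mod_cast hd
    have hc0 : 0 < cV h1n (U i).ρ := cV_pos97 h1n (U i).ρ hd
    have k1 : 0 ≤ ∑ s ∈ Finset.Icc 1 n, Vs s i / E s := Finset.sum_nonneg fun s _ => div_nonneg (hV0 s i) (hE0 s)
    have k2 : 0 ≤ Q i / EQ := div_nonneg (hQ0 i) hEQ0.le
    have k3 : 0 ≤ Real.sqrt n / 10 / cV h1n (U i).ρ := by positivity
    have hi3 : ∑ s ∈ Finset.Icc 1 n, Vs s i / E s + Q i / EQ + Real.sqrt n / 10 / cV h1n (U i).ρ ≤ 1 / η := by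
      rw [le_div_iff₀ hη, mul_comm]
      exact hFi
    refine ⟨?_, ?_, ?_⟩
    · intro s hs
      change Vs s i ≤ _
      have hs0 : (0 : ℝ) < s := by exact_mod_cast hs
      by_cases hsn : s ≤ n
      · have k4 : Vs s i / E s ≤ ∑ s ∈ Finset.Icc 1 n, Vs s i / E s :=
          Finset.single_le_sum (f := fun s => Vs s i / E s) (fun s _ => div_nonneg (hV0 s i) (hE0 s))
            (Finset.mem_Icc.2 ⟨hs, hsn⟩)
        have hEs : 0 < E s := by
          simp only [hE]
          positivity
        have k5 : Vs s i / E s ≤ 1 / η := by linarith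
        rw [div_le_iff₀ hEs] at k5
        refine k5.trans ?_
        simp only [hE]
        have k6 := Real.pow_div_factorial_le_exp (Real.sqrt s) (Real.sqrt_nonneg _) 4
        have k7 : Real.sqrt s ^ 4 = (s : ℝ) ^ 2 := by
          have : Real.sqrt s ^ 2 = s := Real.sq_sqrt hs0.le
          calc Real.sqrt s ^ 4 = (Real.sqrt s ^ 2) ^ 2 := by ring
            _ = _ := by rw [this]
        rw [k7] at k6
        have k8 : (s : ℝ) ^ 2 ≤ 24 * Real.exp (Real.sqrt s) := by
          have : ((Nat.factorial 4 : ℕ) : ℝ) = 24 := by norm_num [Nat.factorial]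
          rw [this, div_le_iff₀ (by norm_num)] at k6
          linarith
        have k9 : Real.exp (6 * Real.sqrt s) = Real.exp (Real.sqrt s) * Real.exp (5 * Real.sqrt s) := by
          rw [← Real.exp_add]
          congr 1
          ring
        rw [k9]
        have k10 : 0 < Real.exp (5 * Real.sqrt s) := Real.exp_pos _
        have k11 := mul_le_mul_of_nonneg_right k8 k10.le
        calc 1 / η * (10 * (s : ℝ) ^ 2 * Real.exp (5 * Real.sqrt s))
            = 10 / η * ((s : ℝ) ^ 2 * Real.exp (5 * Real.sqrt s)) := by ring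
          _ ≤ 10 / η * (24 * Real.exp (Real.sqrt s) * Real.exp (5 * Real.sqrt s)) :=
              mul_le_mul_of_nonneg_left k11 (by positivity)
          _ = _ := by ring
      · have k4 : Finset.univ.filter (fun g : Perm (Fin n) => g.support.card = s) = ∅ := by
          rw [Finset.filter_eq_empty_iff]
          intro g _ hg
          have := Finset.card_le_univ g.support
          rw [Fintype.card_fin] at this
          omega
        simp only [hVs]
        rw [k4, Finset.sum_empty]
        positivity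
    · have hQlt : Q i ≤ 1 / η * EQ := by
        have h4 : Q i / EQ ≤ 1 / η := by linarith
        rwa [div_le_iff₀ hEQ0] at h4
      have hQd : (n.factorial : ℝ) = (finrank ℂ (U i) : ℝ) ^ 2 * Q i := by
        have := hsimple i
        have hne : (Nat.card (Perm (Fin n)) : ℂ) ≠ 0 := by
          rw [Nat.card_eq_fintype_card, hcard]
          exact_mod_cast n.factorial_ne_zero
        let _ : Invertible (Nat.card (Perm (Fin n)) : ℂ) := invertibleOfNonzero hne
        have h4 := FDRep.char_orthonormal (U i) (U i)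
        rw [if_pos ⟨Iso.refl _⟩] at h4
        have h5 : ∑ g, (U i).character g * (U i).character g⁻¹ = (n.factorial : ℂ) := by
          have h6 := congrArg (fun z => (Nat.card (Perm (Fin n)) : ℂ) * z) h4
          rw [mul_inv_cancel_left₀ hne, mul_one, Nat.card_eq_fintype_card, hcard] at h6
          exact h6
        have h7 : ∀ g, (U i).character g * (U i).character g⁻¹ =
            (((finrank ℂ (U i) : ℝ) ^ 2 * (rr (U i).ρ g) ^ 2 : ℝ) : ℂ) := by
          intro g
          have h0' : (finrank ℂ (U i) : ℂ) ≠ 0 := by exact_mod_cast hd0.ne'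
          rw [c2, c1]
          unfold rr
          push_cast
          field_simp
        rw [Finset.sum_congr rfl fun g _ => h7 g] at h5
        have h8 : ((∑ g, (finrank ℂ (U i) : ℝ) ^ 2 * (rr (U i).ρ g) ^ 2 : ℝ) : ℂ) =
            ((n.factorial : ℝ) : ℂ) := by
          push_cast at h5 ⊢
          exact h5
        have h9 : ∑ g, (finrank ℂ (U i) : ℝ) ^ 2 * (rr (U i).ρ g) ^ 2 = (n.factorial : ℝ) := by
          exact_mod_cast h8
        rw [← h9, hQ, Finset.mul_sum]
      have h10 := poly_le51 n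
      have h11 : EQ ≤ 240 * Real.exp (6 * Real.sqrt n) := by
        have h12 : 0 < Real.exp (6 * Real.sqrt n) := Real.exp_pos _
        have h13 : EQ = 10 * ((n : ℝ) + 1) * Real.exp (5 * Real.sqrt n) := by rw [hEQ]; ring
        rw [h13]
        linarith
      have h13 : 0 ≤ (finrank ℂ (U i) : ℝ) ^ 2 := by positivity
      calc (n.factorial : ℝ) = (finrank ℂ (U i) : ℝ) ^ 2 * Q i := hQd
        _ ≤ (finrank ℂ (U i) : ℝ) ^ 2 * (1 / η * (240 * Real.exp (6 * Real.sqrt n))) :=
            mul_le_mul_of_nonneg_left (hQlt.trans (mul_le_mul_of_nonneg_left h11 (by positivity))) h13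
        _ = _ := by ring
    · have := irr_of_simple (U i) (hsimple i)
      have h4 := cV_le h1n (U i).ρ
      have h5 : Real.sqrt n / 10 / cV h1n (U i).ρ ≤ 1 / η := by linarith
      rw [div_le_div_iff₀ hc0 hη] at h5
      have h6 : η / 10 * Real.sqrt n ≤ cV h1n (U i).ρ := by linarith
      exact h6.trans h4
  calc ∑ i ∈ B, (finrank ℂ (U i) : ℝ) ≤ ∑ i ∈ B, (finrank ℂ (U i) : ℝ) * (η * F i) := by
        refine Finset.sum_le_sum fun i hi => ?_
        have h1 := (hbad i hi).le
        have h2 : (0 : ℝ) ≤ finrank ℂ (U i) := Nat.cast_nonneg _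
        nlinarith
    _ ≤ ∑ i, (finrank ℂ (U i) : ℝ) * (η * F i) := by
        refine Finset.sum_le_sum_of_subset_of_nonneg (Finset.subset_univ _) fun i _ _ => ?_
        have := hF0 i
        positivity
    _ = η * ∑ i, (finrank ℂ (U i) : ℝ) * F i := by
        rw [Finset.mul_sum]
        exact Finset.sum_congr rfl fun i _ => by ring
    _ ≤ _ := mul_le_mul_of_nonneg_left hSF.le hη.le

end Pool.Agent.Helper51.TY
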