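import Pool.Agent.Helper51.TY.Y2

/-!
Transfer from the family of `exists_family2` (each irreducible occurs with multiplicity its dimension) to Plancherel measure.
-/

set_option autoImplicit false

open Module Equiv CategoryTheory Pool.Agent.Helper1.TS Pool.Agent.Helper70.TU

open Pool.Agent.Helper51.TN

namespace Pool.Agent.Helper51.TY

theorem char_eq_of_iso {G : Type} [Group G] {V W : FDRep ℂ G} (h : Nonempty (V ≅ W)) : V.character = W.character := by
  obtain ⟨e⟩ := h
  exact FDRep.char_iso e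

/-- Each irreducible occurs in the family as often as its dimension says. -/
theorem count_iso {G : Type} [Group G] [Fintype G] [DecidableEq G] {N : ℕ} (U : Fin N → FDRep ℂ G) (hs : ∀ i, Simple (U i))
    (h4 : ∀ x : G, ∑ i, (U i).character x = if x = 1 then (Fintype.card G : ℂ) else 0)
    (V : FDRep ℂ G) (hV : Simple V) (S : Finset (Fin N)) (hS : ∀ i, i ∈ S ↔ Nonempty (U i ≅ V)) :
    ∑ i ∈ S, (finrank ℂ (U i) : ℝ) = (finrank ℂ V : ℝ) ^ 2 := by
  classical
  have hne : (Nat.card G : ℂ) ≠ 0 := by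
    rw [Nat.card_eq_fintype_card]
    exact_mod_cast Fintype.card_ne_zero
  let _ : Invertible (Nat.card G : ℂ) := invertibleOfNonzero hne
  have h5 : ∀ i, ∑ g : G, (U i).character g * V.character g⁻¹ = if i ∈ S then (Nat.card G : ℂ) else 0 := by
    intro i
    have := hs i
    have h6 := FDRep.char_orthonormal (U i) V
    have h7 := congrArg (fun z => (Nat.card G : ℂ) * z) h6
    simp only [mul_inv_cancel_left₀ hne] at h7
    rw [h7]
    by_cases h : i ∈ S
    · rw [if_pos h, if_pos ((hS i).1 h), mul_one]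
    · rw [if_neg h, if_neg (fun h' => h ((hS i).2 h')), mul_zero]
  have h6 : ∑ i, ∑ g : G, (U i).character g * V.character g⁻¹ = (Nat.card G : ℂ) * V.character 1 := by
    rw [Finset.sum_comm]
    have h7 : ∀ g : G, ∑ i, (U i).character g * V.character g⁻¹ =
        if g = 1 then (Nat.card G : ℂ) * V.character 1 else 0 := by
      intro g
      rw [← Finset.sum_mul, h4 g]
      by_cases hg : g = 1
      · rw [if_pos hg, if_pos hg, hg, inv_one, Nat.card_eq_fintype_card]
      · rw [if_neg hg, if_neg hg, zero_mul]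
    rw [Finset.sum_congr rfl fun g _ => h7 g, Finset.sum_ite_eq' Finset.univ (1 : G), if_pos (Finset.mem_univ _)]
  rw [Finset.sum_congr rfl fun i _ => h5 i, Finset.sum_ite_mem, Finset.univ_inter, Finset.sum_const, nsmul_eq_mul,
    FDRep.char_one, mul_comm] at h6
  have h7 : (S.card : ℂ) = finrank ℂ V := mul_left_cancel₀ hne h6
  have h8 : S.card = finrank ℂ V := by exact_mod_cast h7
  have h9 : ∀ i ∈ S, (finrank ℂ (U i) : ℝ) = finrank ℂ V := by
    intro i hi
    have h10 := congrFun (char_eq_of_iso ((hS i).1 hi)) 1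
    rw [FDRep.char_one, FDRep.char_one] at h10
    have h11 : finrank ℂ (U i) = finrank ℂ V := by exact_mod_cast h10
    rw [h11]
  rw [Finset.sum_congr rfl h9, Finset.sum_const, nsmul_eq_mul, h8]
  ring

/-- **Typical representations.** -/
theorem typical (ε η : ℝ) (hε : 0 < ε) (hε1 : ε < 1) (hη : 0 < η) : ∃ N : ℕ, ∀ n ≥ N,
    ∀ (k : ℕ) (V : Fin k → FDRep ℂ (Perm (Fin n))), (∀ j, Simple (V j)) →
      (∀ i j, Nonempty (V i ≅ V j) → i = j) →
      (∀ j, ¬ ∀ W : FDRep ℂ (Perm (Fin n)), Simple W →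
        ((∀ w : W, w ≠ 0 → ∃ g : Perm (Fin n), (∀ i : Fin n, (1 - ε) * n ≤ (i : ℕ) → g i = i) ∧
            W.ρ g w ≠ ((Perm.sign g : ℤ) : ℂ) • w) ∨
          (n.factorial : ℝ) ^ ε ≤ finrank ℂ W) →
        (∑ g : Perm (Fin n), (((V j).character g ^ 2 + (V j).character (g ^ 2)) / 2) *
          W.character g⁻¹) ≠ 0 ∧
        ((∀ w : W, w ≠ 0 → ∃ g : Perm (Fin n), (∀ i : Fin n, (i : ℕ) < 2 ↔ (g i : ℕ) < 2) ∧ W.ρ g w ≠ w) →
          (∑ g : Perm (Fin n), (((V j).character g ^ 2 - (V j).character (g ^ 2)) / 2) *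
            W.character g⁻¹) ≠ 0)) →
      ∑ j, (finrank ℂ (V j) : ℝ) ^ 2 ≤ η * n.factorial := by
  classical
  obtain ⟨N₁, hN₁⟩ := final_of_good ε hε hε1 (240 / η) (η / 10) (by positivity) (by positivity)
  refine ⟨max N₁ 2, fun n hn k V hVs hVd hbad => ?_⟩
  have hn1 : N₁ ≤ n := (le_max_left _ _).trans hn
  have hn2 : 2 ≤ n := (le_max_right _ _).trans hn
  obtain ⟨N, U, hsimple, hsum, horth, h4⟩ := exists_family2 (Perm (Fin n))
  set S : Fin k → Finset (Fin N) := fun j => Finset.univ.filter (fun i => Nonempty (U i ≅ V j)) with hS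
  have hSm : ∀ j i, i ∈ S j ↔ Nonempty (U i ≅ V j) := by
    intro j i
    simp only [hS, Finset.mem_filter, Finset.mem_univ, true_and]
  have hdisj : ∀ i ∈ (Finset.univ : Finset (Fin k)), ∀ j ∈ (Finset.univ : Finset (Fin k)), i ≠ j →
      Disjoint (S i) (S j) := by
    intro i _ j _ hij
    rw [Finset.disjoint_left]
    intro a ha hb
    obtain ⟨e1⟩ := (hSm i a).1 ha
    obtain ⟨e2⟩ := (hSm j a).1 hb
    exact hij (hVd i j ⟨e1.symm.trans e2⟩)
  have h1 : ∑ j, (finrank ℂ (V j) : ℝ) ^ 2 = ∑ i ∈ Finset.univ.biUnion S, (finrank ℂ (U i) : ℝ) := by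
    rw [Finset.sum_biUnion hdisj]
    refine Finset.sum_congr rfl fun j _ => ?_
    exact (count_iso U hsimple (fun x => by
      rw [h4 x]
      by_cases hx : x = 1
      · rw [if_pos hx, if_pos hx]
      · rw [if_neg hx, if_neg hx]) (V j) (hVs j) (S j) (hSm j)).symm
  rw [h1]
  refine good_family η hη n hn2 U hsimple hsum (fun x y => by
    rw [horth x y]
    congr 2
    ext z
    simp) _ ?_
  intro i hi hgood
  obtain ⟨j, -, hj⟩ := Finset.mem_biUnion.1 hi
  have hiso := (hSm j i).1 hj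
  refine hbad j fun W hW hW1 => ?_
  have h2 := hN₁ n hn1 (U i) (hsimple i) hgood W hW hW1
  rw [char_eq_of_iso hiso] at h2
  exact h2

end Pool.Agent.Helper51.TY
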